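import Mathlib

set_option autoImplicit false

namespace Pool.Agent.H1.AE

open Finset

/-- the exponential estimate -/
theorem ae1_exp (f t : ℝ) (hf : 0 ≤ f) (ht : |t| ≤ 1) :
    (1 - f) * Real.exp (-(t * f)) + f * Real.exp (t * (1 - f)) ≤ Real.exp (f * t ^ 2) := by
  have h1 : Real.exp (t * (1 - f)) = Real.exp (-(t * f)) * Real.exp t := by
    rw [← Real.exp_add]; congr 1; ring
  have h2 : (1 - f) * Real.exp (-(t * f)) + f * Real.exp (t * (1 - f)) =
      Real.exp (-(t * f)) * (f * (Real.exp t - 1) + 1) := by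
    rw [h1]; ring
  rw [h2]
  have h3 : f * (Real.exp t - 1) + 1 ≤ Real.exp (f * (Real.exp t - 1)) := Real.add_one_le_exp _
  have h4 : |Real.exp t - 1 - t| ≤ t ^ 2 := Real.abs_exp_sub_one_sub_id_le ht
  have h5 : Real.exp t - 1 - t ≤ t ^ 2 := (abs_le.1 h4).2
  calc Real.exp (-(t * f)) * (f * (Real.exp t - 1) + 1)
      ≤ Real.exp (-(t * f)) * Real.exp (f * (Real.exp t - 1)) :=
        mul_le_mul_of_nonneg_left h3 (Real.exp_pos _).le
    _ = Real.exp (f * (Real.exp t - 1 - t)) := by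
        rw [← Real.exp_add]; congr 1; ring
    _ ≤ Real.exp (f * t ^ 2) := Real.exp_le_exp.2 (mul_le_mul_of_nonneg_left h5 hf)

/-- the cosh estimate -/
theorem ae1_cosh (f lam x : ℝ) (hf : 0 ≤ f) (h0 : 0 < lam) (h1 : lam ≤ 1) :
    (1 - f) * (Real.exp (-(lam ^ 2 * f)) * Real.cosh (lam * (x + -f))) +
      f * (Real.exp (-(lam ^ 2 * f)) * Real.cosh (lam * (x + (1 - f)))) ≤ Real.cosh (lam * x) := by
  have ha := ae1_exp f lam hf (abs_le.2 ⟨by linarith, h1⟩)
  have hb := ae1_exp f (-lam) hf (abs_le.2 ⟨by linarith, by linarith⟩)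
  have hsq : f * (-lam) ^ 2 = f * lam ^ 2 := by ring
  rw [hsq] at hb
  have e1 : Real.exp (lam * (x + -f)) = Real.exp (lam * x) * Real.exp (-(lam * f)) := by
    rw [← Real.exp_add]; congr 1; ring
  have e2 : Real.exp (-(lam * (x + -f))) = Real.exp (-(lam * x)) * Real.exp (-(-lam * f)) := by
    rw [← Real.exp_add]; congr 1; ring
  have e3 : Real.exp (lam * (x + (1 - f))) = Real.exp (lam * x) * Real.exp (lam * (1 - f)) := by
    rw [← Real.exp_add]; congr 1; ring
  have e4 : Real.exp (-(lam * (x + (1 - f)))) =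
      Real.exp (-(lam * x)) * Real.exp (-lam * (1 - f)) := by
    rw [← Real.exp_add]; congr 1; ring
  have e5 : Real.exp (-(lam ^ 2 * f)) * Real.exp (f * lam ^ 2) = 1 := by
    rw [← Real.exp_add]
    have : -(lam ^ 2 * f) + f * lam ^ 2 = 0 := by ring
    rw [this, Real.exp_zero]
  rw [Real.cosh_eq, Real.cosh_eq, Real.cosh_eq, e1, e2, e3, e4]
  have p1 := Real.exp_pos (lam * x)
  have p2 := Real.exp_pos (-(lam * x))
  have p3 := Real.exp_pos (-(lam ^ 2 * f))
  have q1 := mul_le_mul_of_nonneg_left ha (mul_pos p3 p1).le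
  have q2 := mul_le_mul_of_nonneg_left hb (mul_pos p3 p2).le
  have r1 : Real.exp (-(lam ^ 2 * f)) * Real.exp (lam * x) * Real.exp (f * lam ^ 2) =
      Real.exp (lam * x) := by
    calc _ = (Real.exp (-(lam ^ 2 * f)) * Real.exp (f * lam ^ 2)) * Real.exp (lam * x) := by ring
      _ = _ := by rw [e5, one_mul]
  have r2 : Real.exp (-(lam ^ 2 * f)) * Real.exp (-(lam * x)) * Real.exp (f * lam ^ 2) =
      Real.exp (-(lam * x)) := by
    calc _ = (Real.exp (-(lam ^ 2 * f)) * Real.exp (f * lam ^ 2)) * Real.exp (-(lam * x)) := by ring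
      _ = _ := by rw [e5, one_mul]
  rw [r1] at q1
  rw [r2] at q2
  nlinarith [q1, q2]

/-- AE1: one random rounding step does not increase the potential -/
theorem ae1_step {E : Type} [Fintype E] (χ : E → Prop) [DecidablePred χ] (a lam : ℝ) (ha : 0 ≤ a)
    (h0 : 0 < lam) (h1 : lam ≤ 1) (D c : E → ℝ) (hc : ∀ e, 0 ≤ c e) :
    ∃ k : ℕ, ∑ e, c e * Real.exp (-(lam ^ 2 * (if χ e then Int.fract a else 0))) *
        Real.cosh (lam * (D e + (if χ e then ((k : ℝ) - a) else 0))) ≤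
      ∑ e, c e * Real.cosh (lam * D e) := by
  set f : ℝ := Int.fract a with hf
  have hf0 : 0 ≤ f := Int.fract_nonneg a
  have hf1 : f < 1 := Int.fract_lt_one a
  have hn : ((⌊a⌋₊ : ℕ) : ℝ) = a - f := by
    have h2 : ((⌊a⌋₊ : ℕ) : ℝ) = ((⌊a⌋ : ℤ) : ℝ) := natCast_floor_eq_intCast_floor ha
    have h3 : ((⌊a⌋ : ℤ) : ℝ) + Int.fract a = a := Int.floor_add_fract a
    rw [h2]; linarith
  let g : ℕ → ℝ := fun k => ∑ e, c e * Real.exp (-(lam ^ 2 * (if χ e then f else 0))) *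
        Real.cosh (lam * (D e + (if χ e then ((k : ℝ) - a) else 0)))
  have key : (1 - f) * g ⌊a⌋₊ + f * g (⌊a⌋₊ + 1) ≤ ∑ e, c e * Real.cosh (lam * D e) := by
    simp only [g]
    rw [Finset.mul_sum, Finset.mul_sum, ← Finset.sum_add_distrib]
    apply Finset.sum_le_sum
    intro e _
    by_cases he : χ e
    · simp only [he, if_true]
      have h4 : ((⌊a⌋₊ : ℕ) : ℝ) - a = -f := by rw [hn]; ring
      have h5 : (((⌊a⌋₊ + 1 : ℕ)) : ℝ) - a = 1 - f := by push_cast; rw [hn]; ring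
      rw [h4, h5]
      have h6 := mul_le_mul_of_nonneg_left (ae1_cosh f lam (D e) hf0 h0 h1) (hc e)
      linarith
    · simp only [he, if_false, mul_zero, neg_zero, Real.exp_zero, add_zero, mul_one]
      linarith
  by_cases h7 : g ⌊a⌋₊ ≤ ∑ e, c e * Real.cosh (lam * D e)
  · exact ⟨_, h7⟩
  · refine ⟨⌊a⌋₊ + 1, ?_⟩
    change g (⌊a⌋₊ + 1) ≤ _
    by_contra h8
    push Not at h7 h8
    rcases hf0.eq_or_lt with h9 | h9
    · rw [← h9] at key
      linarith
    · have h10 := mul_lt_mul_of_pos_left h8 h9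
      have h11 := mul_lt_mul_of_pos_left h7 (by linarith : 0 < 1 - f)
      linarith

end Pool.Agent.H1.AE
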