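import Mathlib
import Pool.Agent.H1.AE.AE1

set_option autoImplicit false

namespace Pool.Agent.H1.AE

open Finset

/-- the induction over the set of the rounded coefficients -/
theorem ae2_aux {J E : Type} [Fintype E] [DecidableEq J]
    (χ : J → E → Prop) [∀ j, DecidablePred (χ j)] (a : J → ℝ) (ha : ∀ j, 0 ≤ a j)
    (lam : ℝ) (h0 : 0 < lam) (h1 : lam ≤ 1) (S : Finset J) :
    ∃ k : J → ℕ, ∑ e, Real.exp (-(lam ^ 2 * ∑ j ∈ S, (if χ j e then Int.fract (a j) else 0))) *
        Real.cosh (lam * ∑ j ∈ S, (if χ j e then ((k j : ℝ) - a j) else 0)) ≤ Fintype.card E := by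
  induction S using Finset.induction_on with
  | empty =>
    refine ⟨fun _ => 0, ?_⟩
    simp
  | insert i S hi ih =>
    obtain ⟨k, hk⟩ := ih
    obtain ⟨m, hm⟩ := ae1_step (χ i) (a i) lam (ha i) h0 h1
      (fun e => ∑ j ∈ S, (if χ j e then ((k j : ℝ) - a j) else 0))
      (fun e => Real.exp (-(lam ^ 2 * ∑ j ∈ S, (if χ j e then Int.fract (a j) else 0))))
      (fun e => (Real.exp_pos _).le)
    refine ⟨Function.update k i m, ?_⟩
    refine le_trans (le_of_eq ?_) (hm.trans hk)
    refine Finset.sum_congr rfl fun e _ => ?_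
    have e1 : ∑ j ∈ insert i S, (if χ j e then Int.fract (a j) else 0) =
        (∑ j ∈ S, (if χ j e then Int.fract (a j) else 0)) + (if χ i e then Int.fract (a i) else 0) := by
      rw [Finset.sum_insert hi, add_comm]
    have e2 : ∑ j ∈ insert i S, (if χ j e then ((Function.update k i m j : ℝ) - a j) else 0) =
        (∑ j ∈ S, (if χ j e then ((k j : ℝ) - a j) else 0)) +
          (if χ i e then ((m : ℝ) - a i) else 0) := by
      rw [Finset.sum_insert hi, add_comm, Function.update_self]
      congr 1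
      refine Finset.sum_congr rfl fun j hj => ?_
      have hji : j ≠ i := by
        rintro rfl
        exact hi hj
      rw [Function.update_of_ne hji]
    rw [e1, e2, ← Real.exp_add]
    congr 2
    ring

/-- AE2: rounding of all coefficients -/
theorem ae2_round {J E : Type} [Fintype J] [Fintype E] [DecidableEq J]
    (χ : J → E → Prop) [∀ j, DecidablePred (χ j)] (a : J → ℝ) (ha : ∀ j, 0 ≤ a j)
    (M : ℝ) (hM : ∀ e, ∑ j, (if χ j e then Int.fract (a j) else 0) ≤ M)
    (lam : ℝ) (h0 : 0 < lam) (h1 : lam ≤ 1) :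
    ∃ k : J → ℕ, ∀ e, |∑ j, (if χ j e then ((k j : ℝ) - a j) else 0)| ≤
      lam * M + Real.log (2 * Fintype.card E) / lam := by
  obtain ⟨k, hk⟩ := ae2_aux χ a ha lam h0 h1 Finset.univ
  refine ⟨k, fun e => ?_⟩
  have hM' := hM e
  have h2 := Finset.single_le_sum
    (f := fun e => Real.exp (-(lam ^ 2 * ∑ j, (if χ j e then Int.fract (a j) else 0))) *
        Real.cosh (lam * ∑ j, (if χ j e then ((k j : ℝ) - a j) else 0)))
    (fun e _ => mul_nonneg (Real.exp_pos _).le (Real.cosh_pos _).le) (Finset.mem_univ e)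
  have h3 := h2.trans hk
  beta_reduce at h3
  generalize ∑ j, (if χ j e then ((k j : ℝ) - a j) else 0) = D at h3 ⊢
  generalize ∑ j, (if χ j e then Int.fract (a j) else 0) = T at h3 hM'
  have hcard : (0 : ℝ) < Fintype.card E := by
    have : 0 < Fintype.card E := Fintype.card_pos_iff.mpr ⟨e⟩
    exact_mod_cast this
  have h4 : Real.cosh (lam * D) ≤ Fintype.card E * Real.exp (lam ^ 2 * M) := by
    have h5 : Real.cosh (lam * D) = Real.exp (lam ^ 2 * T) *
        (Real.exp (-(lam ^ 2 * T)) * Real.cosh (lam * D)) := by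
      rw [← mul_assoc, ← Real.exp_add, add_neg_cancel, Real.exp_zero, one_mul]
    rw [h5]
    calc Real.exp (lam ^ 2 * T) * (Real.exp (-(lam ^ 2 * T)) * Real.cosh (lam * D))
        ≤ Real.exp (lam ^ 2 * T) * Fintype.card E :=
          mul_le_mul_of_nonneg_left h3 (Real.exp_pos _).le
      _ ≤ Real.exp (lam ^ 2 * M) * Fintype.card E := by
          refine mul_le_mul_of_nonneg_right (Real.exp_le_exp.mpr ?_) hcard.le
          exact mul_le_mul_of_nonneg_left hM' (sq_nonneg _)
      _ = Fintype.card E * Real.exp (lam ^ 2 * M) := mul_comm _ _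
  have h6 : Real.exp |lam * D| ≤ 2 * Real.cosh (lam * D) := by
    rw [← Real.cosh_abs, Real.cosh_eq]
    have := Real.exp_pos (-|lam * D|)
    linarith
  have h7 : Real.exp |lam * D| ≤ Real.exp (Real.log (2 * Fintype.card E) + lam ^ 2 * M) := by
    rw [Real.exp_add, Real.exp_log (by positivity)]
    calc Real.exp |lam * D| ≤ 2 * Real.cosh (lam * D) := h6
      _ ≤ 2 * (Fintype.card E * Real.exp (lam ^ 2 * M)) := by linarith
      _ = 2 * Fintype.card E * Real.exp (lam ^ 2 * M) := by ring
  have h8 := Real.exp_le_exp.mp h7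
  rw [abs_mul, abs_of_pos h0] at h8
  have h9 : lam * M + Real.log (2 * Fintype.card E) / lam =
      (Real.log (2 * Fintype.card E) + lam ^ 2 * M) / lam := by
    field_simp
    ring
  rw [h9, le_div_iff₀ h0, mul_comm]
  exact h8

end Pool.Agent.H1.AE
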