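import Mathlib

set_option autoImplicit false

namespace Pool.Agent.H1.AE

open Finset

/-- A positive relation between many vectors. -/
lemma ae3_rel {J E : Type} [Fintype J] [Fintype E] (v : J → E → ℝ) (S : Finset J)
    (hS : Fintype.card E < S.card) :
    ∃ d : J → ℝ, (∀ j, j ∉ S → d j = 0) ∧ (∀ e, ∑ j, d j * v j e = 0) ∧ ∃ j, 0 < d j := by
  classical
  have hli : ¬ LinearIndependent ℝ (fun j : S => v j) := by
    intro h
    have h1 := h.fintype_card_le_finrank
    rw [Module.finrank_fintype_fun_eq_card, Fintype.card_coe] at h1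
    omega
  obtain ⟨g, hg, i, hi⟩ := Fintype.not_linearIndependent_iff.1 hli
  set d : J → ℝ := fun j => if h : j ∈ S then g ⟨j, h⟩ else 0 with hd
  have hd0 : ∀ j, j ∉ S → d j = 0 := fun j hj => by simp [hd, hj]
  have hdi : ∀ j : S, d j = g j := fun j => by simp [hd]
  have hsum : ∀ e, ∑ j, d j * v j e = 0 := by
    intro e
    have h1 := congrFun hg e
    rw [Finset.sum_apply] at h1
    have h2 : ∑ j, d j * v j e = ∑ j ∈ S, d j * v j e := by
      refine (Finset.sum_subset (Finset.subset_univ S) fun j _ hj => ?_).symm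
      rw [hd0 j hj, zero_mul]
    rw [h2, ← Finset.sum_coe_sort S]
    refine Eq.trans (Finset.sum_congr rfl fun j _ => ?_) h1
    rw [hdi j]
    simp
  rcases lt_or_gt_of_ne hi with h | h
  · refine ⟨fun j => - d j, fun j hj => by simp [hd0 j hj], fun e => ?_, i, ?_⟩
    · have := hsum e
      simp only [neg_mul, Finset.sum_neg_distrib, this, neg_zero]
    · show 0 < - d i
      rw [hdi i]
      linarith
  · exact ⟨d, hd0, hsum, i, by rw [hdi i]; exact h⟩

/-- AE3: Caratheodory's theorem for cones -/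
theorem ae3_carath {J E : Type} [Fintype J] [Fintype E] (v : J → E → ℝ) (a : J → ℝ)
    (ha : ∀ j, 0 ≤ a j) : ∃ b : J → ℝ, (∀ j, 0 ≤ b j) ∧ (∀ j, a j = 0 → b j = 0) ∧
      (∀ e, ∑ j, b j * v j e = ∑ j, a j * v j e) ∧
      ∃ S : Finset J, (∀ j, b j ≠ 0 → j ∈ S) ∧ S.card ≤ Fintype.card E := by
  classical
  let P : Set (J → ℝ) := {b | (∀ j, 0 ≤ b j) ∧ (∀ j, a j = 0 → b j = 0) ∧
      (∀ e, ∑ j, b j * v j e = ∑ j, a j * v j e)}
  let f : (J → ℝ) → ℕ := fun b => (univ.filter fun j => b j ≠ 0).card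
  have hP : P.Nonempty := ⟨a, ha, fun j hj => hj, fun e => rfl⟩
  obtain ⟨b, hb, hmin⟩ := WellFounded.has_min (measure f).wf P hP
  obtain ⟨hb0, hba, hbs⟩ := hb
  refine ⟨b, hb0, hba, hbs, univ.filter (fun j => b j ≠ 0), fun j hj => by simp [hj], ?_⟩
  by_contra hcon
  push Not at hcon
  obtain ⟨d, hd0, hds, j1, hj1⟩ := ae3_rel v _ hcon
  obtain ⟨j0, hj0, hjm⟩ := Finset.exists_min_image (univ.filter fun j => 0 < d j)
    (fun j => b j / d j) ⟨j1, by simp [hj1]⟩
  have hj0' : 0 < d j0 := (Finset.mem_filter.1 hj0).2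
  set t := b j0 / d j0 with ht
  have ht0 : 0 ≤ t := div_nonneg (hb0 j0) hj0'.le
  have hdb : ∀ j, b j = 0 → d j = 0 := fun j hj => hd0 j (by simp [hj])
  have hmem : (fun j => b j - t * d j) ∈ P := by
    refine ⟨fun j => ?_, fun j hj => ?_, fun e => ?_⟩
    · show 0 ≤ b j - t * d j
      rcases lt_or_ge 0 (d j) with h | h
      · have h1 := hjm j (by simp [h])
        have h2 : t ≤ b j / d j := h1
        rw [le_div_iff₀ h] at h2
        linarith
      · have := mul_nonneg ht0 (neg_nonneg.2 h)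
        have := hb0 j
        linarith
    · show b j - t * d j = 0
      rw [hdb j (hba j hj), hba j hj]
      ring
    · show ∑ j, (b j - t * d j) * v j e = _
      have h1 : ∀ j, (b j - t * d j) * v j e = b j * v j e - t * (d j * v j e) := fun j => by ring
      simp only [h1]
      rw [Finset.sum_sub_distrib, ← Finset.mul_sum, hds e, hbs e]
      ring
  refine hmin _ hmem ?_
  show f (fun j => b j - t * d j) < f b
  refine Finset.card_lt_card ?_
  refine (Finset.ssubset_iff_of_subset ?_).2 ⟨j0, ?_, ?_⟩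
  · intro j hj
    rw [Finset.mem_filter] at hj ⊢
    refine ⟨hj.1, fun h => hj.2 ?_⟩
    show b j - t * d j = 0
    rw [h, hdb j h]
    ring
  · rw [Finset.mem_filter]
    exact ⟨Finset.mem_univ _, fun h => hj0'.ne' (hdb j0 h)⟩
  · rw [Finset.mem_filter]
    rintro ⟨-, h⟩
    apply h
    show b j0 - t * d j0 = 0
    rw [ht]
    field_simp
    ring

end Pool.Agent.H1.AE
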