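import Pool.Agent.H1.AE.Main

set_option autoImplicit false
set_option linter.unusedVariables false
set_option linter.unusedSectionVars false

namespace Pool.Agent.H1.AE

open Finset
open Pool.Agent.H126R2.CDC (MGraph)
open Pool.Agent.H126R2.NC (TC InCone InLat InIntCone cone_lat_of_intCone const_of_tc)

variable {V E : Type} [Fintype V] [DecidableEq V] [Fintype E] [DecidableEq E]

/-- a weighting in the cone and in the lattice has a circuit cover after an even constant is added -/
theorem add_const (G : MGraph V E) (hG : G.Bridgeless) (p : E → ℕ) (s : ℕ) (K : ℝ)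
    (hc : InCone G p) (hl : InLat G p) (hs : Even s)
    (hK : (∀ e, (p e : ℝ) ≤ K) ∨ (Fintype.card E : ℝ) ≤ K)
    (h : 14 * Real.sqrt (K * Real.log (2 * Fintype.card E)) + 39 ≤ s) :
    InIntCone G (fun e => p e + s) := by
  obtain ⟨w, hw0, hwC, hw⟩ := hc
  have h1 := (cone_lat_of_intCone G _ (intCone_const G hG s hs)).2
  have h2 := AddSubgroup.add_mem _ hl h1
  refine deep G hG _ ?_ s K w hw0 hwC (fun e => ?_) ?_ h
  · unfold InLat
    convert h2 using 1
    funext e
    simp
  · rw [← hw e]
    push_cast
    ring
  · rcases hK with hK | hK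
    · left
      intro e
      have := hK e
      push_cast
      linarith
    · exact Or.inr hK

end Pool.Agent.H1.AE
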