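import Pool.Agent.H1.SC.Main
import Pool.Graph.R_seed8.H126R2.CDC.Main

set_option autoImplicit false
set_option linter.unusedVariables false
set_option linter.unusedSectionVars false

namespace Pool.Agent.H1.AE

open Finset
open Pool.Agent.H126R2.CDC (MGraph)
open Pool.Agent.H126R2.NC (InIntCone)
open Pool.Agent.TH399.CC (intCone_add)

variable {V E : Type} [Fintype V] [DecidableEq V] [Fintype E] [DecidableEq E]

lemma intCone_mul (G : MGraph V E) {p r : E → ℕ} (n : ℕ) (hp : InIntCone G p)
    (h : ∀ e, r e = n * p e) : InIntCone G r := by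
  have h1 : ∀ k : ℕ, InIntCone G (fun e => k * p e) := by
    intro k
    induction k with
    | zero => exact ⟨0, by simp, fun e => by simp⟩
    | succ k ih => exact intCone_add G ih hp (fun e => by ring)
  have h2 : r = fun e => n * p e := funext h
  rw [h2]
  exact h1 n

lemma intCone_const (G : MGraph V E) (hG : G.Bridgeless) (a : ℕ) (ha : Even a) :
    InIntCone G (fun _ => a) := by
  obtain ⟨Q, hQ1, hQ2⟩ := G.exists_cdc hG
  obtain ⟨k, hk⟩ := ha
  refine intCone_mul G (p := fun _ => 2) k ⟨Q, hQ1, hQ2⟩ (fun e => ?_)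
  omega

end Pool.Agent.H1.AE
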