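import Pool.Agent.H1.AE.AE2
import Pool.Agent.H1.AE.AE3
import Pool.Agent.H1.AE.Base

set_option autoImplicit false
set_option linter.unusedVariables false
set_option linter.unusedSectionVars false

/-!
Weights at a distance from the boundary of the cone of circuits.
-/

namespace Pool.Agent.H1.AE

open Finset
open Pool.Agent.H126R2.CDC (MGraph)
open Pool.Agent.H126R2.NC (TC InCone InLat InIntCone cone_lat_of_intCone const_of_tc)
open Pool.Agent.TH399.CC (intCone_add intCone_sum)
open Pool.Agent.N411.CV (HasCol colouring_bridgeless)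
open Pool.Agent.H1.SC (hasCol_seven cover_any)

variable {V E : Type} [Fintype V] [DecidableEq V] [Fintype E] [DecidableEq E]

/-- near-constant weights -/
theorem near_int (G : MGraph V E) (hG : G.Bridgeless) (p : E → ℕ)
    (v : E × Bool → V) (hv : ∀ e, G.ends e = s(v (e, false), v (e, true)))
    (htc : ∀ e f, TC (fun e => v (e, false)) (fun e => v (e, true)) e f → p e = p f)
    (hlat : InLat G p) (hr : ∀ e f, 3 * p e + 39 ≤ 4 * p f) : InIntCone G p := by
  obtain ⟨col, hcol1, hcol2⟩ := colouring_bridgeless hasCol_seven (fun e => v (e, false))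
    (fun e => v (e, true)) (G.no_one_cut hG v hv)
  exact cover_any G hG v hv (k := 6) (by norm_num) col ⟨hcol1, hcol2⟩ p htc hlat (fun e f => by
      have := hr e f
      omega)

/-- rounding with the error `2 √(K log (2 n))` -/
theorem round_sqrt {J : Type} [Fintype J] [DecidableEq J] [Nonempty E]
    (χ : J → E → Prop) [∀ j, DecidablePred (χ j)] (a : J → ℝ) (ha : ∀ j, 0 ≤ a j)
    (K : ℝ) (hK : ∀ e, ∑ j, (if χ j e then Int.fract (a j) else 0) ≤ K) :
    ∃ k : J → ℕ, ∀ e, |∑ j, (if χ j e then ((k j : ℝ) - a j) else 0)| ≤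
      2 * Real.sqrt (K * Real.log (2 * Fintype.card E)) := by
  classical
  have hcard : (1 : ℝ) ≤ Fintype.card E := by
    exact_mod_cast Fintype.card_pos
  set l := Real.log (2 * Fintype.card E) with hl
  have hlpos : 0 < l := Real.log_pos (by linarith)
  have hK0 : 0 ≤ K := by
    obtain ⟨e⟩ := (inferInstance : Nonempty E)
    refine le_trans (sum_nonneg fun j _ => ?_) (hK e)
    split_ifs
    · exact Int.fract_nonneg _
    · exact le_rfl
  rcases le_or_gt l K with h | h
  · have hKpos : 0 < K := lt_of_lt_of_le hlpos h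
    have hlam0 : 0 < Real.sqrt (l / K) := Real.sqrt_pos.2 (div_pos hlpos hKpos)
    have hlam1 : Real.sqrt (l / K) ≤ 1 := by
      rw [Real.sqrt_le_left zero_le_one, one_pow]
      exact (div_le_one hKpos).2 h
    obtain ⟨k, hk⟩ := ae2_round χ a ha K hK (Real.sqrt (l / K)) hlam0 hlam1
    refine ⟨k, fun e => (hk e).trans (le_of_eq ?_)⟩
    rw [← hl]
    have e1 : Real.sqrt (l / K) = Real.sqrt l / Real.sqrt K := Real.sqrt_div hlpos.le K
    have e2 : Real.sqrt (K * l) = Real.sqrt K * Real.sqrt l := Real.sqrt_mul hK0 l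
    have e3 : Real.sqrt K * Real.sqrt K = K := Real.mul_self_sqrt hK0
    have e4 : Real.sqrt l * Real.sqrt l = l := Real.mul_self_sqrt hlpos.le
    have h5 : Real.sqrt K ≠ 0 := (Real.sqrt_pos.2 hKpos).ne'
    have h6 : Real.sqrt l ≠ 0 := (Real.sqrt_pos.2 hlpos).ne'
    rw [e1, e2]
    field_simp
    nlinarith [e3, e4]
  · refine ⟨fun j => ⌊a j⌋₊, fun e => ?_⟩
    have h1 : ∑ j, (if χ j e then (((⌊a j⌋₊ : ℕ) : ℝ) - a j) else 0) =
        - ∑ j, (if χ j e then Int.fract (a j) else 0) := by
      rw [← sum_neg_distrib]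
      refine sum_congr rfl fun j _ => ?_
      split_ifs
      · have h2 : ((⌊a j⌋₊ : ℕ) : ℝ) = ((⌊a j⌋ : ℤ) : ℝ) := by
          have := Int.natCast_floor_eq_floor (ha j)
          exact_mod_cast congrArg (fun z : ℤ => (z : ℝ)) this
        rw [h2, Int.fract]
        ring
      · simp
    have h3 : 0 ≤ ∑ j, (if χ j e then Int.fract (a j) else 0) := by
      refine sum_nonneg fun j _ => ?_
      split_ifs
      · exact Int.fract_nonneg _
      · exact le_rfl
    rw [h1, abs_neg, abs_of_nonneg h3]
    refine (hK e).trans ?_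
    have h4 : K ≤ Real.sqrt (K * l) := by
      apply Real.le_sqrt_of_sq_le
      nlinarith
    have h5 : 0 ≤ Real.sqrt (K * l) := Real.sqrt_nonneg _
    linarith

theorem deep (G : MGraph V E) (hG : G.Bridgeless) (q : E → ℕ) (hq : InLat G q) (s K : ℝ)
    (w : Finset E → ℝ) (hw0 : ∀ C, 0 ≤ w C) (hwC : ∀ C, ¬ G.IsCircuit C → w C = 0)
    (hw : ∀ e, (q e : ℝ) - s = ∑ C : Finset E, w C * (if e ∈ C then 1 else 0))
    (hK : (∀ e, (q e : ℝ) - s ≤ K) ∨ (Fintype.card E : ℝ) ≤ K)
    (hs : 14 * Real.sqrt (K * Real.log (2 * Fintype.card E)) + 39 ≤ s) : InIntCone G q := by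
  classical
  rcases isEmpty_or_nonempty E with hE | hE
  · exact ⟨0, by simp, fun e => (hE.false e).elim⟩
  have hs0 : 39 ≤ s := by
    have := Real.sqrt_nonneg (K * Real.log (2 * Fintype.card E))
    linarith
  -- the representation with few fractional parts
  obtain ⟨a, ha0, haC, ha, haK⟩ : ∃ a : Finset E → ℝ, (∀ C, 0 ≤ a C) ∧
      (∀ C, ¬ G.IsCircuit C → a C = 0) ∧
      (∀ e, (q e : ℝ) - s = ∑ C : Finset E, a C * (if e ∈ C then 1 else 0)) ∧
      (∀ e, ∑ C : Finset E, (if e ∈ C then Int.fract (a C) else 0) ≤ K) := by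
    rcases hK with hK | hK
    · refine ⟨w, hw0, hwC, hw, fun e => le_trans (sum_le_sum fun C _ => ?_)
        ((hw e).symm.le.trans (hK e))⟩
      split_ifs
      · rw [mul_one]
        have h7 : (0 : ℝ) ≤ ⌊w C⌋ := by exact_mod_cast Int.floor_nonneg.2 (hw0 C)
        unfold Int.fract
        linarith
      · simp
    · obtain ⟨b, hb0, hbC, hb, S, hS, hSc⟩ := ae3_carath
        (fun (C : Finset E) (e : E) => if e ∈ C then (1 : ℝ) else 0) w hw0
      refine ⟨b, hb0, fun C hC => hbC C (hwC C hC), fun e => ?_, fun e => ?_⟩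
      · rw [hw e]
        exact (hb e).symm
      · calc ∑ C : Finset E, (if e ∈ C then Int.fract (b C) else 0)
            ≤ ∑ C : Finset E, (if C ∈ S then (1 : ℝ) else 0) := by
              refine sum_le_sum fun C _ => ?_
              by_cases hCS : C ∈ S
              · rw [if_pos hCS]
                split_ifs
                · exact (Int.fract_lt_one _).le
                · exact zero_le_one
              · have hbz : b C = 0 := by
                  by_contra h
                  exact hCS (hS C h)
                rw [if_neg hCS, hbz]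
                split_ifs <;> simp
          _ = (S.card : ℝ) := by
              rw [← sum_filter]
              simp
          _ ≤ Fintype.card E := by exact_mod_cast hSc
          _ ≤ K := hK
  set D := 2 * Real.sqrt (K * Real.log (2 * Fintype.card E)) with hD
  have hD0 : 0 ≤ D := by positivity
  -- only the circuits are rounded
  have hsub : ∀ (g : Finset E → ℝ), (∀ C, ¬ G.IsCircuit C → g C = 0) →
      ∑ C : Finset E, g C = ∑ C : {C : Finset E // G.IsCircuit C}, g C.1 := by
    intro g hg
    rw [← Finset.sum_subtype (univ.filter fun C : Finset E => G.IsCircuit C)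
      (fun C => by simp) g, sum_filter]
    refine sum_congr rfl fun C _ => ?_
    split_ifs with h
    · rfl
    · exact hg C h
  obtain ⟨k, hk⟩ := round_sqrt (E := E) (J := {C : Finset E // G.IsCircuit C})
    (fun C e => e ∈ C.1) (fun C => a C.1) (fun C => ha0 C.1) K (fun e => by
      refine le_trans (le_of_eq ?_) (haK e)
      rw [hsub (fun C => if e ∈ C then Int.fract (a C) else 0)]
      intro C hC
      rw [haC C hC]
      simp)
  set N : E → ℕ := fun e => ∑ C : {C : Finset E // G.IsCircuit C}, (if e ∈ C.1 then k C else 0)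
    with hN
  have hNI : InIntCone G N := by
    refine intCone_sum G univ _ fun C _ => ?_
    have h1 : InIntCone G (fun e => if e ∈ C.1 then 1 else 0) := by
      refine ⟨{C.1}, fun C' hC' => ?_, fun e => ?_⟩
      · rw [Multiset.mem_singleton.1 hC']
        exact C.2
      · rw [← Multiset.cons_zero, Multiset.countP_cons]
        simp
    refine intCone_mul G (k C) h1 (fun e => ?_)
    split_ifs <;> simp
  have hNe : ∀ e, |(N e : ℝ) - ((q e : ℝ) - s)| ≤ D := by
    intro e
    have h1 := hk e
    have h2 : ∑ C : {C : Finset E // G.IsCircuit C}, (if e ∈ C.1 then ((k C : ℝ) - a C.1) else 0) =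
        (N e : ℝ) - ((q e : ℝ) - s) := by
      rw [ha e, hsub (fun C => a C * (if e ∈ C then 1 else 0)), hN]
      · push_cast
        rw [← sum_sub_distrib]
        refine sum_congr rfl fun C _ => ?_
        split_ifs <;> simp
      · intro C hC
        rw [haC C hC, zero_mul]
    rw [h2] at h1
    exact h1
  have hsD : 7 * D + 39 ≤ s := by
    rw [hD]
    linarith
  have hNq : ∀ e, N e ≤ q e := by
    intro e
    have h1 := (abs_le.1 (hNe e)).2
    have h2 : (N e : ℝ) ≤ q e := by linarith
    exact_mod_cast h2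
  have hp : ∀ e, ((q e - N e : ℕ) : ℝ) = q e - N e := fun e => Nat.cast_sub (hNq e)
  -- the cone and the lattice
  obtain ⟨v, hv⟩ := G.exists_halves
  have hqc : InCone G q := by
    obtain ⟨w2, h20, h21, h22⟩ := (cone_lat_of_intCone G _ (intCone_const G hG 2 even_two)).1
    refine ⟨fun C => w C + s / 2 * w2 C, fun C => ?_, fun C hC => ?_, fun e => ?_⟩
    · have := h20 C
      have := hw0 C
      positivity
    · show w C + s / 2 * w2 C = 0
      rw [hwC C hC, h21 C hC]
      ring
    · have h3 := h22 e
      have h4 := hw e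
      have h5 : ∑ C : Finset E, (w C + s / 2 * w2 C) * (if e ∈ C then 1 else 0) =
          ∑ C : Finset E, w C * (if e ∈ C then 1 else 0) +
            s / 2 * ∑ C : Finset E, w2 C * (if e ∈ C then 1 else 0) := by
        rw [mul_sum, ← sum_add_distrib]
        refine sum_congr rfl fun C _ => ?_
        ring
      rw [h5, ← h3, ← h4]
      push_cast
      ring
  have htc : ∀ e f, TC (fun e => v (e, false)) (fun e => v (e, true)) e f →
      q e - N e = q f - N f := by
    intro e f hef
    rw [const_of_tc G v hv q hqc hef, const_of_tc G v hv N (cone_lat_of_intCone G N hNI).1 hef]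
  have hlat : InLat G (fun e => q e - N e) := by
    have h1 := AddSubgroup.sub_mem _ hq (cone_lat_of_intCone G N hNI).2
    unfold InLat
    convert h1 using 1
    funext e
    show ((q e - N e : ℕ) : ℤ) = (q e : ℤ) - (N e : ℤ)
    exact Nat.cast_sub (hNq e)
  have hI : InIntCone G (fun e => q e - N e) := by
    refine near_int G hG _ v hv htc hlat fun e f => ?_
    have h1 := abs_le.1 (hNe e)
    have h2 := abs_le.1 (hNe f)
    have h3 := hp e
    have h4 := hp f
    have h5 : (3 : ℝ) * ((q e - N e : ℕ) : ℝ) + 39 ≤ 4 * ((q f - N f : ℕ) : ℝ) := by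
      rw [h3, h4]
      linarith [h1.1, h1.2, h2.1, h2.2]
    exact_mod_cast h5
  exact intCone_add G hI hNI fun e => (Nat.sub_add_cancel (hNq e)).symm

end Pool.Agent.H1.AE
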